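import Mathlib
import Pool.Agent.Lib.MP_9087e4_co.Sh.Gen
import Pool.Agent.Lib.MP_9087e4_co.Sh.Num
import Pool.Agent.Lib.MP_9087e4_co.Sh.DualGen

set_option autoImplicit false

open Pool.Agent.Lib.MP_9087e4_co

namespace Pool.Agent.Results.MP_9087e4_co.DimShift

/-- An edge set on `n` vertices that is independent in the rigidity matroid `R_d` is independent in
the generic `C^(D-2)_(D-1)`-cofactor matroid as soon as
`D ≥ d + min (8 √(D log D), 14 √(m log m))`, where `m = max (n - d, 0)`. -/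
theorem result (d D n : ℕ) (hd : 2 ≤ d)
    (hD : (d : ℝ) + min (8 * √(D * Real.log D))
      (14 * √(((n - d : ℕ) : ℝ) * Real.log ((n - d : ℕ) : ℝ))) ≤ D)
    (G : SimpleGraph (Fin n)) (p : Fin n → Fin d → ℝ) (q : Fin n → Fin 2 → ℝ) (hq : Generic q)
    (F : Set (Sym2 (Fin n))) (hF : F ⊆ G.edgeSet) (h : LinearIndepOn ℝ (rigRow p) F) :
    LinearIndepOn ℝ (cofRow (D - 1) q) F := by
  lift F to Finset (Sym2 (Fin n)) using Set.toFinite F
  have hF' : ∀ e ∈ F, ¬ e.IsDiag := fun e he => G.not_isDiag_of_mem_edgeSet (hF he)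
  rcases min_cases (8 * √(D * Real.log D))
    (14 * √(((n - d : ℕ) : ℝ) * Real.log ((n - d : ℕ) : ℝ))) with ⟨e, -⟩ | ⟨e, -⟩ <;> rw [e] at hD
  · obtain ⟨J, h1, h2⟩ := Sh.num_len hd hD
    exact hq.reg.ind F (Sh.shift2 d J D h1 h2 F hF' ⟨p, h⟩)
  · exact hq.reg.ind F (Sh.shift3 d (n - d) D (by omega) (by rw [Fintype.card_fin]; omega) hD F hF'
      ⟨p, h⟩)

end Pool.Agent.Results.MP_9087e4_co.DimShift
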