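import Mathlib
import Pool.Agent.Lib.MP_9087e4_co.MaxDeg

set_option autoImplicit false

open Pool.Agent.Lib.MP_9087e4_co

namespace Pool.Agent.Results.MP_9087e4_co.MaxDegree

/-- For graphs of maximum degree at most `d + 2`, every edge set that is independent in the generic
rigidity matroid `R_d` is independent in the generic `C^(d-2)_(d-1)`-cofactor matroid. -/
theorem result (d n : ℕ) (hd : 2 ≤ d) (G : SimpleGraph (Fin n))
    (hG : ∀ v, (G.neighborSet v).ncard ≤ d + 2)
    (p : Fin n → Fin d → ℝ) (hp : Generic p) (q : Fin n → Fin 2 → ℝ) (hq : Generic q)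
    (F : Set (Sym2 (Fin n))) (hF : F ⊆ G.edgeSet) (h : LinearIndepOn ℝ (rigRow p) F) :
    LinearIndepOn ℝ (cofRow (d - 1) q) F := by
  obtain ⟨k, rfl⟩ : ∃ k, d = k + 1 := ⟨d - 1, by omega⟩
  lift F to Finset (Sym2 (Fin n)) using Set.toFinite F
  refine hq.reg.ind F (gind_of_QC hq.reg (by omega) hp.kcirc F
    (fun e he => G.not_isDiag_of_mem_edgeSet (hF he)) (fun v => Or.inl ?_) h)
  refine le_trans ?_ (hG v)
  rw [← Set.ncard_coe_finset]
  exact Set.ncard_le_ncard fun a ha => hF (mem_nb.1 ha)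

end Pool.Agent.Results.MP_9087e4_co.MaxDegree
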