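import Mathlib
import Pool.Agent.Lib.MP_9087e4_co.Sh.RkMain

set_option autoImplicit false

open Pool.Agent.Lib.MP_9087e4_co

namespace Pool.Agent.Results.MP_9087e4_co.RankShare

/-- An edge set `F` on `n` vertices that is independent in the rigidity matroid `R_d` becomes
independent in the generic `C^(d-2)_(d-1)`-cofactor matroid after removing at most
`7 min (|F| / √d, m √m)` edges, where `m = max (n - d, 0)`. -/
theorem result (d n : ℕ) (hd : 2 ≤ d) (G : SimpleGraph (Fin n)) (p : Fin n → Fin d → ℝ)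
    (q : Fin n → Fin 2 → ℝ) (hq : Generic q) (F : Set (Sym2 (Fin n))) (hF : F ⊆ G.edgeSet)
    (h : LinearIndepOn ℝ (rigRow p) F) :
    ∃ F' ⊆ F, (F.ncard : ℝ) ≤ F'.ncard +
        7 * min (F.ncard / √d) (((n - d : ℕ) : ℝ) * √((n - d : ℕ) : ℝ)) ∧
      LinearIndepOn ℝ (cofRow (d - 1) q) F' := by
  lift F to Finset (Sym2 (Fin n)) using Set.toFinite F
  have hF' : ∀ e ∈ F, ¬ e.IsDiag := fun e he => G.not_isDiag_of_mem_edgeSet (hF he)
  rw [Set.ncard_coe_finset]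
  rcases min_cases ((F.card : ℝ) / √d) (((n - d : ℕ) : ℝ) * √((n - d : ℕ) : ℝ)) with
    ⟨e, -⟩ | ⟨e, -⟩ <;> rw [e]
  · obtain ⟨F', h1, h2, h3⟩ := Sh.rk_real d (by omega) F hF' ⟨p, h⟩
    refine ⟨F', by exact_mod_cast h1, ?_, hq.reg.ind F' h3⟩
    rw [Set.ncard_coe_finset, ← mul_div_assoc, ← div_mul_eq_mul_div]
    linarith
  · obtain ⟨F', h1, h2, h3⟩ := Sh.rk_real2 d (n - d) (by omega)
      (by rw [Fintype.card_fin]; omega) F hF' ⟨p, h⟩
    exact ⟨F', by exact_mod_cast h1, by rwa [Set.ncard_coe_finset], hq.reg.ind F' h3⟩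

end Pool.Agent.Results.MP_9087e4_co.RankShare
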