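import Mathlib
import Pool.Agent.Lib.MP_9087e4_co.Mz.Main

set_option autoImplicit false

open Pool.Agent.Lib.MP_9087e4_co

namespace Pool.Agent.Results.MP_9087e4_co.SparseMaxwell

/-- Locally sparse graphs in which every vertex set `A` spans at most `(1 - ε) d |A|` edges are
independent in the generic `C^(d-2)_(d-1)`-cofactor matroid. -/
theorem result (ε : ℝ) (hε : 0 < ε) : ∃ δ : ℝ, 0 < δ ∧ ∃ d0 : ℕ, ∀ d : ℕ, d0 ≤ d →
    ∀ (n : ℕ) (G : SimpleGraph (Fin n)),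
      (∀ A : Set (Fin n), ({e ∈ G.edgeSet | ∀ v ∈ e, v ∈ A}.ncard : ℝ) ≤ (1 - ε) * d * A.ncard) →
      (∀ u v, u ≠ v → ((G.commonNeighbors u v).ncard : ℝ) ≤ δ * d) →
      ∀ q : Fin n → Fin 2 → ℝ, Generic q → LinearIndepOn ℝ (cofRow (d - 1) q) G.edgeSet := by
  obtain ⟨δ, hδ, d0, h⟩ := Mz.sparse_both3 ε hε
  refine ⟨δ, hδ, d0, fun d hd n G h1 h2 q hq => ?_⟩
  obtain ⟨F, hF, h3, -⟩ := h d hd n G h1 h2
  exact hF ▸ hq.reg.ind F h3

end Pool.Agent.Results.MP_9087e4_co.SparseMaxwell
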